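import Pool.Agent.Q133.SemiArc

/-!
# The complete graph with `3 k + 4` vertices is a semi-arc `k`-visibility graph

The definitions are in `Pool/Agent/Q133/ArcDefs.lean` (`Arc`, `Arc.pts`) and
`Pool/Agent/Q133/SemiDefs.lean` (`cone`, `SeesCone`, `IsSemiArcVis`).
-/

namespace Pool.Agent.Results.MP_e2d93f_co.CompleteSemiArc

open Q133.ArcVis

/-- For every `k`, the complete graph with `3 k + 4` vertices is a semi-arc `k`-visibility
graph. -/
theorem result : ∀ k : ℕ, IsSemiArcVis k (⊤ : SimpleGraph (Fin (3 * k + 4))) :=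
  semi_complete

end Pool.Agent.Results.MP_e2d93f_co.CompleteSemiArc
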